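import Pool.Agent.Lib.DI.F4.NormQ

/-!
# Theorem DM (`p = 3`), part F: the final contradiction

If `y` is integral with a unit as coefficient of index one, and `27/γ²` is in the maximal ideal, then
`s³ + γ y` is not the cube of a quotient of bounded power series.
-/

set_option autoImplicit false

namespace DM.F4

open PowerSeries DI.F4

/-- lifting of series with coefficients in `V` -/
private theorem Con_lift {Om : Type} [Field Om] (V : ValuationSubring Om) (f : Om⟦X⟧)
    (hf : ∀ n, coeff n f ∈ V) : ∃ g : V⟦X⟧, map V.subtype g = f := by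
  refine ⟨mk fun n => ⟨coeff n f, hf n⟩, ?_⟩
  ext n
  rw [coeff_map, coeff_mk]
  rfl

private theorem Con_unit {Om : Type} [Field Om] (V : ValuationSubring Om) {x : V}
    (h0 : (x : Om) ≠ 0) (h : (x : Om)⁻¹ ∈ V) : IsUnit x :=
  IsUnit.of_mul_eq_one ⟨(x : Om)⁻¹, h⟩ (Subtype.ext (mul_inv_cancel₀ h0))

private theorem Con_res_ne {Om : Type} [Field Om] (V : ValuationSubring Om) {x : V}
    (h0 : (x : Om) ≠ 0) (h : (x : Om)⁻¹ ∈ V) : IsLocalRing.residue V x ≠ 0 := by
  intro h1
  rw [IsLocalRing.residue_eq_zero_iff] at h1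
  exact (IsLocalRing.mem_maximalIdeal x).1 h1 (Con_unit V h0 h)

private theorem Con_res_zero {Om : Type} [Field Om] (V : ValuationSubring Om) {x : V}
    (h : (x : Om)⁻¹ ∉ V) : IsLocalRing.residue V x = 0 := by
  rw [IsLocalRing.residue_eq_zero_iff, IsLocalRing.mem_maximalIdeal]
  rintro ⟨u, rfl⟩
  apply h
  have h1 : ((u : V) : Om)⁻¹ = ((u⁻¹ : Vˣ) : V) := by
    have h2 : ((u : V) : Om) * (((u⁻¹ : Vˣ) : V) : Om) = 1 := by
      exact congrArg V.subtype (Units.mul_inv u)
    exact (eq_inv_of_mul_eq_one_right h2).symm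
  rw [h1]
  exact Subtype.mem _

/-- an element whose inverse is not in `V`, as an element of `V` with residue `0` -/
private theorem Con_small {Om : Type} [Field Om] (V : ValuationSubring Om) {x : Om}
    (h : x⁻¹ ∉ V) : ∃ p : V, V.subtype p = x ∧ IsLocalRing.residue V p = 0 := by
  have hx : x ∈ V := (V.mem_or_inv_mem x).resolve_right h
  exact ⟨⟨x, hx⟩, rfl, Con_res_zero V h⟩

private theorem deriv_cube {F : Type} [Field F] (h3 : (3 : F⟦X⟧) = 0) (f : F⟦X⟧) :
    derivative F (f ^ 3) = 0 := by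
  rw [Derivation.leibniz_pow]
  simp only [smul_eq_mul, nsmul_eq_mul]
  push_cast
  linear_combination (f ^ (3 - 1) * derivative F f) * h3

/-- **Con.** -/
theorem con {Om : Type} [Field Om] [CharZero Om] {V : ValuationSubring Om} {S : Subfield Om}
    {ϖ : Om} (hU : Unif V S ϖ) (h3 : (3 : Om)⁻¹ ∉ V) {γ : Om} (hγ0 : γ ≠ 0)
    (hγ : γ ^ 2 / 27 ∉ V) {y s Q1 Q2 : Om⟦X⟧} (vy : ∀ n, coeff n y ∈ V)
    (vs : ∀ n, coeff n s ∈ V) (hy : coeff 1 y ≠ 0) (hy' : (coeff 1 y)⁻¹ ∈ V)
    (sD : ∀ n, coeff n (Q1 - s * Q2) ∈ S) (sQ2 : ∀ n, coeff n Q2 ∈ S)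
    (vD : ∀ n, coeff n (Q1 - s * Q2) ∈ V) (vQ2 : ∀ n, coeff n Q2 ∈ V) (hQ2 : Q2 ≠ 0)
    (heq : Q1 ^ 3 = (s ^ 3 + C γ * y) * Q2 ^ 3) : False := by
  have hy0 : y ≠ 0 := by
    rintro rfl
    rw [map_zero] at hy
    exact hy rfl
  have h30 : (3 : Om) ≠ 0 := three_ne_zero
  have hC0 : ∀ {x : Om}, x ≠ 0 → (C x : Om⟦X⟧) ≠ 0 := fun hx =>
    (map_ne_zero_iff _ C_injective).2 hx
  have h3' : (3 : Om⟦X⟧) = C 3 := (map_ofNat _ 3).symm
  obtain ⟨D, hD⟩ : ∃ D, D = Q1 - s * Q2 := ⟨_, rfl⟩
  have hrel : D * (D ^ 2 + 3 * s * Q2 * D + 3 * s ^ 2 * Q2 ^ 2) = C γ * y * Q2 ^ 3 := by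
    rw [hD]
    linear_combination heq
  have hD0 : D ≠ 0 := by
    rintro h
    rw [h, zero_mul] at hrel
    exact mul_ne_zero (mul_ne_zero (hC0 hγ0) hy0) (pow_ne_zero 3 hQ2) hrel.symm
  rw [← hD] at sD vD
  obtain ⟨c1, hc1, vc1, n1, hn1, hn1'⟩ := tNormQ Om V S ϖ hU D hD0 sD vD
  obtain ⟨c2, hc2, vc2, n2, hn2, hn2'⟩ := tNormQ Om V S ϖ hU Q2 hQ2 sQ2 vQ2
  -- lifts
  have hinj : Function.Injective V.subtype := Subtype.val_injective
  obtain ⟨y, rfl⟩ := Con_lift V y vy
  obtain ⟨s, rfl⟩ := Con_lift V s vs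
  obtain ⟨d1, hd1⟩ := Con_lift V (C c1 * D) (fun n => by rw [coeff_C_mul]; exact vc1 n)
  obtain ⟨e, he⟩ := Con_lift V (C c2 * Q2) (fun n => by rw [coeff_C_mul]; exact vc2 n)
  -- the residue field
  have h3F : (3 : IsLocalRing.ResidueField V) = 0 := by
    have h4 : IsLocalRing.residue V (3 : V) = 0 := by
      apply Con_res_zero
      exact h3
    rwa [map_ofNat] at h4
  have h3X : (3 : (IsLocalRing.ResidueField V)⟦X⟧) = 0 := by
    rw [← map_ofNat (C (R := IsLocalRing.ResidueField V)), h3F, map_zero]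
  -- the data over the residue field
  have red_ne : ∀ (f : V⟦X⟧) (n : ℕ), coeff n (map V.subtype f) ≠ 0 →
      (coeff n (map V.subtype f))⁻¹ ∈ V → coeff n (map (IsLocalRing.residue V) f) ≠ 0 := by
    intro f n h3 h4
    rw [coeff_map] at h3 h4 ⊢
    exact Con_res_ne V h3 h4
  have hry1 := red_ne y 1 hy hy'
  have hry : map (IsLocalRing.residue V) y ≠ 0 := by
    intro h
    rw [h, map_zero] at hry1
    exact hry1 rfl
  have hdy : derivative _ (map (IsLocalRing.residue V) y) ≠ 0 := by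
    intro h
    have h1 := coeff_derivative (map (IsLocalRing.residue V) y) 0
    rw [h, map_zero, Nat.cast_zero, zero_add, zero_add, mul_one] at h1
    exact hry1 h1.symm
  have hr1 : map (IsLocalRing.residue V) d1 ≠ 0 := by
    intro h
    refine red_ne d1 n1 ?_ ?_ (by rw [h, map_zero])
    · rw [hd1, coeff_C_mul]
      exact hn1
    · rw [hd1, coeff_C_mul]
      exact hn1'
  have hr2 : map (IsLocalRing.residue V) e ≠ 0 := by
    intro h
    refine red_ne e n2 ?_ ?_ (by rw [h, map_zero])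
    · rw [he, coeff_C_mul]
      exact hn2
    · rw [he, coeff_C_mul]
      exact hn2'
  -- the relation for the normalised series
  obtain ⟨d, hd⟩ : ∃ d, d = c2 / c1 := ⟨_, rfl⟩
  have hd0 : d ≠ 0 := by
    rw [hd]
    exact div_ne_zero hc2 hc1
  have hdc : (C d : Om⟦X⟧) * C c1 = C c2 := by
    rw [← map_mul, hd, div_mul_cancel₀ _ hc1]
  have hrel2 : C d * map V.subtype d1 * ((C d * map V.subtype d1) ^ 2 +
      3 * map V.subtype s * map V.subtype e * (C d * map V.subtype d1) +
      3 * map V.subtype s ^ 2 * map V.subtype e ^ 2) =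
      C γ * map V.subtype y * map V.subtype e ^ 3 := by
    rw [hd1, he, ← mul_assoc (C d) (C c1) D, hdc]
    linear_combination C c2 ^ 3 * hrel
  by_cases ht : d ^ 2 / 3 ∈ V
  · -- `v(d) ≥ 1/2`
    have k3 : (3 * d / γ)⁻¹ ∉ V := by
      intro h
      apply hγ
      have e1 : γ ^ 2 / 27 = (d ^ 2 / 3) * ((3 * d / γ)⁻¹) ^ 2 := by
        field_simp
        norm_num
      rw [e1]
      exact mul_mem ht (pow_mem h 2)
    have k1 : (d ^ 3 / γ)⁻¹ ∉ V := by
      intro h
      apply hγ
      have e1 : γ ^ 2 / 27 = (d ^ 2 / 3) ^ 3 * ((d ^ 3 / γ)⁻¹) ^ 2 := by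
        field_simp
        norm_num
      rw [e1]
      exact mul_mem (pow_mem ht 3) (pow_mem h 2)
    have k2 : (3 * d ^ 2 / γ)⁻¹ ∉ V := by
      intro h
      apply hγ
      have e1 : γ ^ 2 / 27 = (d ^ 2 / 3) ^ 2 * 3 * ((3 * d ^ 2 / γ)⁻¹) ^ 2 := by
        field_simp
        norm_num
      rw [e1]
      have m3 : (3 : Om) ∈ V := by exact_mod_cast natCast_mem V 3
      exact mul_mem (mul_mem (pow_mem ht 2) m3) (pow_mem h 2)
    obtain ⟨p3, hp3, r3⟩ := Con_small V k3
    obtain ⟨p2, hp2, r2⟩ := Con_small V k2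
    obtain ⟨p1, hp1, r1⟩ := Con_small V k1
    have f1 : (C d : Om⟦X⟧) ^ 3 = C γ * C (V.subtype p1) := by
      rw [hp1, ← map_pow, ← map_mul]
      congr 1
      field_simp
    have f2 : 3 * (C d : Om⟦X⟧) ^ 2 = C γ * C (V.subtype p2) := by
      rw [hp2, h3', ← map_pow, ← map_mul, ← map_mul]
      congr 1
      field_simp
    have f3 : 3 * (C d : Om⟦X⟧) = C γ * C (V.subtype p3) := by
      rw [hp3, h3', ← map_mul, ← map_mul]
      congr 1
      field_simp
    have h4 : C p1 * d1 ^ 3 + C p2 * (s * e * d1 ^ 2) + C p3 * (s ^ 2 * e ^ 2 * d1) =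
        y * e ^ 3 := by
      apply map_injective V.subtype hinj
      simp only [map_mul, map_add, map_pow, map_C]
      apply mul_left_cancel₀ (hC0 hγ0)
      linear_combination hrel2 - (map V.subtype d1) ^ 3 * f1 -
        (map V.subtype s * map V.subtype e * map V.subtype d1 ^ 2) * f2 -
        (map V.subtype s ^ 2 * map V.subtype e ^ 2 * map V.subtype d1) * f3
    have h5 := congrArg (map (IsLocalRing.residue V)) h4
    simp only [map_mul, map_add, map_pow, map_C] at h5
    rw [r1, r2, r3, map_zero, zero_mul, zero_mul, zero_mul, add_zero, add_zero] at h5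
    exact mul_ne_zero hry (pow_ne_zero 3 hr2) h5.symm
  · -- `v(d) < 1/2`
    have k2 : (3 / d ^ 2)⁻¹ ∉ V := by
      rw [inv_div]
      exact ht
    have k1 : (3 / d)⁻¹ ∉ V := by
      intro h
      apply ht
      have e1 : d ^ 2 / 3 = 3 * ((3 / d)⁻¹) ^ 2 := by
        field_simp
      rw [e1]
      have m3 : (3 : Om) ∈ V := by exact_mod_cast natCast_mem V 3
      exact mul_mem m3 (pow_mem h 2)
    obtain ⟨p2, hp2, r2⟩ := Con_small V k2
    obtain ⟨p1, hp1, r1⟩ := Con_small V k1
    obtain ⟨ε, hε⟩ : ∃ ε, ε = d ^ 3 / γ := ⟨_, rfl⟩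
    have hε0 : ε ≠ 0 := by
      rw [hε]
      exact div_ne_zero (pow_ne_zero 3 hd0) hγ0
    have f1 : 3 * (C d : Om⟦X⟧) ^ 2 = C d ^ 3 * C (V.subtype p1) := by
      rw [hp1, h3', ← map_pow, ← map_pow, ← map_mul, ← map_mul]
      congr 1
      field_simp
    have f2 : 3 * (C d : Om⟦X⟧) = C d ^ 3 * C (V.subtype p2) := by
      rw [hp2, h3', ← map_pow, ← map_mul, ← map_mul]
      congr 1
      field_simp
    have f3 : (C d : Om⟦X⟧) ^ 3 = C γ * C ε := by
      rw [hε, ← map_mul, ← map_pow]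
      congr 1
      field_simp
    have hrel4 : C ε * (map V.subtype d1 * (map V.subtype d1 ^ 2 +
        C (V.subtype p1) * map V.subtype s * map V.subtype e * map V.subtype d1 +
        C (V.subtype p2) * map V.subtype s ^ 2 * map V.subtype e ^ 2)) =
        map V.subtype y * map V.subtype e ^ 3 := by
      apply mul_left_cancel₀ (hC0 hγ0)
      linear_combination hrel2 -
        (map V.subtype s * map V.subtype e * map V.subtype d1 ^ 2) * f1 -
        (map V.subtype s ^ 2 * map V.subtype e ^ 2 * map V.subtype d1) * f2 -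
        (map V.subtype d1 * (map V.subtype d1 ^ 2 +
        C (V.subtype p1) * map V.subtype s * map V.subtype e * map V.subtype d1 +
        C (V.subtype p2) * map V.subtype s ^ 2 * map V.subtype e ^ 2)) * f3
    by_cases hv : ε ∈ V
    · obtain ⟨ε', rfl⟩ : ∃ p : V, V.subtype p = ε := ⟨⟨_, hv⟩, rfl⟩
      have h4 : C ε' * (d1 * (d1 ^ 2 + C p1 * s * e * d1 + C p2 * s ^ 2 * e ^ 2)) =
          y * e ^ 3 := by
        apply map_injective V.subtype hinj
        simpa only [map_mul, map_add, map_pow, map_C] using hrel4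
      have h5 := congrArg (map (IsLocalRing.residue V)) h4
      simp only [map_mul, map_add, map_pow, map_C] at h5
      rw [r1, r2, map_zero] at h5
      have h6 : C (IsLocalRing.residue V ε') * map (IsLocalRing.residue V) d1 ^ 3 =
          map (IsLocalRing.residue V) y * map (IsLocalRing.residue V) e ^ 3 := by
        rw [← h5]
        ring
      have h7 := congrArg (derivative (IsLocalRing.ResidueField V)) h6
      rw [Derivation.leibniz, Derivation.leibniz, deriv_cube h3X, deriv_cube h3X,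
        derivative_C] at h7
      simp only [smul_eq_mul, mul_zero, zero_add, add_zero] at h7
      exact mul_ne_zero (pow_ne_zero 3 hr2) hdy h7.symm
    · have k3 : (ε⁻¹)⁻¹ ∉ V := by
        rw [inv_inv]
        exact hv
      obtain ⟨q, hq, rq⟩ := Con_small V k3
      have h4 : d1 * (d1 ^ 2 + C p1 * s * e * d1 + C p2 * s ^ 2 * e ^ 2) =
          C q * (y * e ^ 3) := by
        apply map_injective V.subtype hinj
        simp only [map_mul, map_add, map_pow, map_C]
        have h8 : (C ε : Om⟦X⟧) * C (V.subtype q) = 1 := by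
          rw [hq, ← map_mul, mul_inv_cancel₀ hε0, map_one]
        linear_combination C (V.subtype q) * hrel4 - (map V.subtype d1 *
          (map V.subtype d1 ^ 2 +
          C (V.subtype p1) * map V.subtype s * map V.subtype e * map V.subtype d1 +
          C (V.subtype p2) * map V.subtype s ^ 2 * map V.subtype e ^ 2)) * h8
      have h5 := congrArg (map (IsLocalRing.residue V)) h4
      simp only [map_mul, map_add, map_pow, map_C] at h5
      rw [r1, r2, rq, map_zero] at h5
      have h6 : map (IsLocalRing.residue V) d1 ^ 3 = 0 := by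
        linear_combination h5
      exact pow_ne_zero 3 hr1 h6

end DM.F4
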