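import Pool.Agent.Lib.DM.F4.Ctr
import Pool.Agent.Lib.DM.F4.Defs

/-!
# Theorem DM, part F: the generic form of `S_FH` (`p = 3`, `3` inert)

`c⁸ = 3`, `γ = c^k`, `1 ≤ k ≤ 8`; the coefficients of `u` are divisible by `γ`, the leading one exactly.
Then the same holds for `T = T(u)` (estimate of the logarithm), and `y - lam x - nu`, the tangent at a
point of order three in the kernel of reduction, is not the cube of a quotient of bounded series.
-/

set_option autoImplicit false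

namespace DM.F4

open PowerSeries DI.F4

/-- The relations between `u`, `T = T(u)`, `W = W(u)`: the curve `y² = x³ + a x + b`, `x = T/W`,
`y = -1/W`, and `dx/(2 y) = du`. -/
structure TWr {R : Type} [CommRing R] (a b : R) (u T W : PowerSeries R) : Prop where
  curve : W = T ^ 3 + C a * T * W ^ 2 + C b * W ^ 3
  diff : derivative R T * W - T * derivative R W = -(2 * W * derivative R u)
  T0 : coeff 0 T = 0
  T1 : coeff 1 T = coeff 1 u
  W0 : coeff 0 W = 0

section val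

variable {Om : Type} [Field Om] [CharZero Om] {V : ValuationSubring Om}

/-- integers prime to three -/
theorem nat_inv (h3 : (3 : Om)⁻¹ ∉ V) {n : ℕ} (hn : ¬ 3 ∣ n) : (n : Om)⁻¹ ∈ V := by
  have hn0 : n ≠ 0 := by
    rintro rfl
    exact hn (dvd_zero 3)
  have hn1 : (n : Om) ≠ 0 := by exact_mod_cast hn0
  obtain ⟨j, hj⟩ : ∃ j, n * n = 1 + 3 * j := by
    have h1 : n % 3 = 1 ∨ n % 3 = 2 := by omega
    refine ⟨n * n / 3, ?_⟩
    have h2 : n * n % 3 = 1 := by
      rcases h1 with h | h <;> simp [Nat.mul_mod, h]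
    omega
  have h1 := (DN.F4.unit_add (V := V) (x := 1) (m := 3 * j) (one_mem V) one_ne_zero
    (by rw [inv_one]; exact one_mem V) (mul_mem (by exact_mod_cast natCast_mem V 3)
      (natCast_mem V j)) ?_).2
  · have h2 : (n : Om)⁻¹ = n * (1 + 3 * (j : Om))⁻¹ := by
      have h4 : (n : Om) * n = 1 + 3 * j := by exact_mod_cast hj
      rw [← h4]
      field_simp
    rw [h2]
    exact mul_mem (natCast_mem V n) h1
  · rcases Nat.eq_zero_or_pos j with h | h
    · left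
      rw [h]
      push_cast
      ring
    · right
      intro h5
      apply h3
      have h4 : (3 : Om)⁻¹ = j * (3 * (j : Om))⁻¹ := by
        have : (j : Om) ≠ 0 := by exact_mod_cast h.ne'
        field_simp
      rw [h4]
      exact mul_mem (natCast_mem V j) h5

variable {c : Om}

omit [CharZero Om] in
theorem c_mem (h3 : (3 : Om)⁻¹ ∉ V) (hc : c ^ 8 = 3) : c ∈ V := by
  by_contra h
  have h1 := (V.mem_or_inv_mem c).resolve_left h
  apply h3
  rw [← hc, ← inv_pow]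
  exact pow_mem h1 8

omit [CharZero Om] in
theorem c_inv (h3 : (3 : Om)⁻¹ ∉ V) (hc : c ^ 8 = 3) : c⁻¹ ∉ V := by
  intro h1
  apply h3
  rw [← hc, ← inv_pow]
  exact pow_mem h1 8

private theorem three_pow (j : ℕ) (hj : 3 ≤ j) : 8 * j + 1 ≤ 3 ^ j := by
  induction j with
  | zero => omega
  | succ j ih =>
    rcases Nat.lt_or_ge j 3 with h | h
    · have h1 : j = 2 := by omega
      rw [h1]
      norm_num
    · have h1 := ih h
      rw [pow_succ]
      omega

/-- the estimate of the logarithm -/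
theorem est (h3 : (3 : Om)⁻¹ ∉ V) (hc : c ^ 8 = 3) {k m : ℕ} (hk : 1 ≤ k) (hm : 1 ≤ m)
    (m3 : m ≠ 3) (m6 : m ≠ 6) (m9 : m ≠ 9) : (c ^ k) ^ (m - 1) / m ∈ V := by
  obtain ⟨j, m', hm', rfl⟩ := Nat.exists_eq_pow_mul_and_not_dvd (show m ≠ 0 by omega) 3
    (by norm_num)
  have hc0 : c ≠ 0 := by
    rintro rfl
    rw [zero_pow (by norm_num)] at hc
    exact three_ne_zero hc.symm
  have hm0 : m' ≠ 0 := by
    rintro rfl
    exact hm' (dvd_zero 3)
  have hm1 : (m' : Om) ≠ 0 := by exact_mod_cast hm0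
  have h4 : 8 * j ≤ 3 ^ j * m' - 1 := by
    rcases Nat.lt_or_ge j 3 with h | h
    · have h5 : m' ≠ 3 := by
        rintro rfl
        exact hm' (dvd_refl 3)
      interval_cases j
      · omega
      · omega
      · omega
    · have h5 := three_pow j h
      have h6 : 3 ^ j * 1 ≤ 3 ^ j * m' := Nat.mul_le_mul_left _ (by omega)
      omega
  have h5 : 8 * j ≤ k * (3 ^ j * m' - 1) := by
    have h6 : 1 * (3 ^ j * m' - 1) ≤ k * (3 ^ j * m' - 1) := Nat.mul_le_mul_right _ hk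
    omega
  have h6 : (c ^ k) ^ (3 ^ j * m' - 1) / ((3 ^ j * m' : ℕ) : Om) =
      c ^ (k * (3 ^ j * m' - 1) - 8 * j) * (m' : Om)⁻¹ := by
    have e1 : c ^ (k * (3 ^ j * m' - 1)) =
        c ^ (k * (3 ^ j * m' - 1) - 8 * j) * (c ^ 8) ^ j := by
      rw [← pow_mul, ← pow_add, Nat.sub_add_cancel h5]
    rw [← pow_mul, e1, hc]
    push_cast
    have : (3 : Om) ^ j ≠ 0 := pow_ne_zero _ three_ne_zero
    field_simp
  rw [h6]
  exact mul_mem (pow_mem (c_mem h3 hc) _) (nat_inv h3 hm')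

end val

section om

variable {Om : Type} [Field Om]

private theorem omS_c2 (a b : Om) : coeff 2 (omS a b) = 0 := by
  obtain ⟨Z, hZ⟩ := omS_exp a b
  rw [hZ]
  simp only [map_add, coeff_C_mul, coeff_X_pow, coeff_one, coeff_X_pow_mul']
  norm_num

private theorem omS_c5 (a b : Om) : coeff 5 (omS a b) = 0 := by
  obtain ⟨Z, hZ⟩ := omS_exp a b
  rw [hZ]
  simp only [map_add, coeff_C_mul, coeff_X_pow, coeff_one, coeff_X_pow_mul']
  norm_num

private theorem omS_c8 (a b : Om) : coeff 8 (omS a b) = 6 * a ^ 2 := by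
  obtain ⟨Z, hZ⟩ := omS_exp a b
  rw [hZ]
  simp only [map_add, coeff_C_mul, coeff_X_pow, coeff_one, coeff_X_pow_mul']
  norm_num

end om

/-- **FH**, generic form. -/
theorem fh {Om : Type} [Field Om] [CharZero Om] {V : ValuationSubring Om} {S : Subfield Om}
    {ϖ : Om} (hU : Unif V S ϖ) (h3 : (3 : Om)⁻¹ ∉ V) {c a b lam nu r : Om} {k : ℕ}
    (hk1 : 1 ≤ k) (hk8 : k ≤ 8) (hc : c ^ 8 = 3) (cS : c ∈ S) (ha : a ∈ V) (aS : a ∈ S)
    (hb : b ∈ V) (bS : b ∈ S) (hl : lam / c ^ 3 ∈ V) (hl0 : lam ≠ 0)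
    (hli : (lam / c ^ 3)⁻¹ ∈ V) (hr : r ∈ V) (rS : r ∈ S) (hrn : r ^ 3 = nu * c ^ 3)
    {u T W ψ Q1 Q2 : Om⟦X⟧}
    (uV : ∀ n, coeff n u / c ^ k ∈ V) (uS : ∀ n, coeff n u ∈ S) (u0 : coeff 0 u = 0)
    (u1 : coeff 1 u ≠ 0) (u1' : (coeff 1 u / c ^ k)⁻¹ ∈ V) (hT : TWr a b u T W)
    (hψ : ψ ^ 3 * W = -(X ^ 3 * (1 + C lam * T + C nu * W))) (hQ2 : Q2 ≠ 0) (hQ : Q2 * ψ = Q1)
    (Q1S : ∀ n, coeff n Q1 ∈ S) (Q2S : ∀ n, coeff n Q2 ∈ S)
    (Q1V : ∀ n, coeff n Q1 ∈ V) (Q2V : ∀ n, coeff n Q2 ∈ V) : False := by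
  have hc0 : c ≠ 0 := by
    rintro rfl
    rw [zero_pow (by norm_num)] at hc
    exact three_ne_zero hc.symm
  have hcV := c_mem h3 hc
  have hcI := c_inv h3 hc
  have hγ0 : c ^ k ≠ 0 := pow_ne_zero k hc0
  have m3 : (3 : Om) ∈ V := by exact_mod_cast natCast_mem V 3
  have hT0 : constantCoeff T = 0 := by
    rw [← coeff_zero_eq_constantCoeff_apply]
    exact hT.T0
  have hW0 : constantCoeff W = 0 := by
    rw [← coeff_zero_eq_constantCoeff_apply]
    exact hT.W0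
  have hu0 : constantCoeff u = 0 := by
    rw [← coeff_zero_eq_constantCoeff_apply]
    exact u0
  have hTne : T ≠ 0 := by
    intro h
    have := hT.T1
    rw [h, map_zero] at this
    exact u1 this.symm
  obtain ⟨hlg, hWT⟩ := lg_of_diff hT0 hW0 hu0 hTne hT.curve hT.diff
  -- the series `T1`
  obtain ⟨T1, hT1⟩ : ∃ T1, T1 = C (c ^ k)⁻¹ * T := ⟨_, rfl⟩
  have hT1' : T = C (c ^ k) * T1 := by
    rw [hT1, ← mul_assoc, ← map_mul, mul_inv_cancel₀ hγ0, map_one, one_mul]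
  have hT10 : constantCoeff T1 = 0 := by
    rw [hT1, map_mul, hT0, mul_zero]
  obtain ⟨ℓ, hℓ⟩ : ∃ ℓ : Om⟦X⟧, ℓ = mk fun m => coeff m (lgS a b) * (c ^ k) ^ (m - 1) := ⟨_, rfl⟩
  have hℓ0 : constantCoeff ℓ = 0 := by
    rw [← coeff_zero_eq_constantCoeff_apply, hℓ, coeff_mk, coeff_zero_eq_constantCoeff_apply,
      lgS_const, zero_mul]
  have hℓ1 : coeff 1 ℓ = 1 := by
    rw [hℓ, coeff_mk, coeff_one_lgS, Nat.sub_self, pow_zero, mul_one]
  have hoV : In V.toSubring (omS a b) := inOmS (O := V.toSubring) ha hb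
  have hℓV : In V.toSubring ℓ := by
    intro m
    rcases Nat.eq_zero_or_pos m with h | h
    · rw [h, coeff_zero_eq_constantCoeff_apply, hℓ0]
      exact V.zero_mem
    · have h4 : coeff m ℓ = coeff (m - 1) (omS a b) * ((c ^ k) ^ (m - 1) / m) := by
        rw [hℓ, coeff_mk, lgS, coeff_mk]
        ring
      rw [h4]
      by_cases m3' : m = 3
      · rw [m3', show 3 - 1 = 2 from rfl, omS_c2, zero_mul]
        exact V.zero_mem
      by_cases m6 : m = 6
      · rw [m6, show 6 - 1 = 5 from rfl, omS_c5, zero_mul]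
        exact V.zero_mem
      by_cases m9 : m = 9
      · rw [m9, show 9 - 1 = 8 from rfl, omS_c8]
        have h5 : (6 : Om) * a ^ 2 * ((c ^ k) ^ 8 / ((9 : ℕ) : Om)) = 2 * a ^ 2 * 3 ^ (k - 1) := by
          have h6 : (c ^ k) ^ 8 = 3 ^ (k - 1) * 3 := by
            rw [← pow_mul, mul_comm k 8, pow_mul, hc, ← pow_succ]
            congr 1
            omega
          rw [h6]
          push_cast
          ring
        rw [h5]
        have m2 : (2 : Om) ∈ V := by exact_mod_cast natCast_mem V 2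
        exact V.mul_mem _ _ (V.mul_mem _ _ m2 (pow_mem ha 2)) (pow_mem m3 _)
      exact V.mul_mem _ _ (hoV _) (est h3 hc hk1 h m3' m6 m9)
  have hcs : cs ℓ T1 = C (c ^ k)⁻¹ * u := by
    ext n
    rw [coeff_C_mul, ← hlg, coeff_cs hT10, coeff_cs hT0, Finset.mul_sum]
    refine Finset.sum_congr rfl fun d _ => ?_
    rw [hT1', mul_pow, ← map_pow, coeff_C_mul, hℓ, coeff_mk]
    rcases Nat.eq_zero_or_pos d with h | h
    · rw [h, coeff_zero_eq_constantCoeff_apply, lgS_const]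
      ring
    · obtain ⟨d', rfl⟩ : ∃ d', d = d' + 1 := ⟨d - 1, by omega⟩
      rw [Nat.add_sub_cancel, pow_succ (c ^ k) d']
      field_simp
  have hT1V : In V.toSubring T1 := by
    refine DN.F4.In.of_cs hℓV hℓ0 hℓ1 hT10 ?_
    rw [hcs]
    intro n
    rw [coeff_C_mul]
    have := uV n
    rw [div_eq_inv_mul] at this
    exact this
  have hTS : In S.toSubring T := by
    refine DN.F4.In.of_cs (f := lgS a b) ?_ (lgS_const a b) (coeff_one_lgS a b) hT0 ?_
    · intro m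
      rw [lgS, coeff_mk]
      have h3 : coeff (m - 1) (omS a b) ∈ S := inOmS (O := S.toSubring) aS bS _
      have h4 : coeff (m - 1) (omS a b) / m ∈ S := div_mem h3 (natCast_mem S m)
      exact h4
    · rw [hlg]
      exact uS
  have hTV : In V.toSubring T := by
    rw [hT1']
    exact (In.C (pow_mem hcV k)).mul hT1V
  have hwV : In V.toSubring (cs (wS a b) T) := (inWS (O := V.toSubring) ha hb).cs hTV hT0
  have hc11 : coeff 1 T1 = coeff 1 u / c ^ k := by
    rw [hT1, coeff_C_mul, hT.T1]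
    ring
  -- the series `t = T / X`
  obtain ⟨t, ht⟩ := (X_dvd_iff).2 hT0
  have htc : ∀ n, coeff n t = coeff (n + 1) T := by
    intro n
    rw [ht, coeff_succ_X_mul]
  have hWne : W ≠ 0 := by
    rw [hWT]
    refine mul_ne_zero (pow_ne_zero 3 hTne) ?_
    intro h
    have h3 : constantCoeff (cs (wS a b) T) = 1 := by
      rw [constantCoeff_cs hT0, wS_const]
    rw [h, map_zero] at h3
    exact zero_ne_one h3
  have hcb : (-(t * ψ)) ^ 3 = (1 - C a * T * W - C b * W ^ 2) * (1 + C lam * T) +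
      C nu * T ^ 3 := by
    apply mul_right_cancel₀ hWne
    have h3 := hT.curve
    have h4 : (-(t * ψ)) ^ 3 * W = T ^ 3 * (1 + C lam * T + C nu * W) := by
      rw [ht] at hψ ⊢
      linear_combination (-(t ^ 3)) * hψ
    rw [h4]
    linear_combination (-(1 + C lam * T)) * h3
  -- `γ = c ^ (k + 3)`
  have hγ1 : c ^ (k + 3) ≠ 0 := pow_ne_zero _ hc0
  have hγ2 : (c ^ (k + 3)) ^ 2 / 27 ∉ V := by
    intro h
    apply hcI
    have h4 : c⁻¹ = (c ^ (k + 3)) ^ 2 / 27 * c ^ (17 - 2 * k + 0) := by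
      have h5 : (27 : Om) = c ^ 24 := by
        rw [show 24 = 8 * 3 from rfl, pow_mul, hc]
        norm_num
      rcases Nat.lt_or_ge 8 k with h6 | h6
      · omega
      · have h7 : (c ^ (k + 3)) ^ 2 * c ^ (17 - 2 * k + 0) = c ^ 23 := by
          rw [← pow_mul, ← pow_add]
          congr 1
          omega
        rw [div_mul_eq_mul_div, h7, h5]
        field_simp
    rw [h4]
    exact mul_mem h (pow_mem hcV _)
  -- `s` and `y`
  obtain ⟨lam', hlam'⟩ : ∃ lam', lam' = lam / c ^ 3 := ⟨_, rfl⟩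
  rw [← hlam'] at hl hli
  have hlam : lam = c ^ 3 * lam' := by
    rw [hlam']
    field_simp
  have hlam0 : lam' ≠ 0 := by
    rintro h
    rw [h, mul_zero] at hlam
    exact hl0 hlam
  obtain ⟨w, hw⟩ : ∃ w, w = cs (wS a b) T := ⟨_, rfl⟩
  rw [← hw] at hwV hWT
  obtain ⟨s, hs⟩ : ∃ s, s = 1 + C (r * c ^ (k - 1)) * T1 := ⟨_, rfl⟩
  obtain ⟨y, hy⟩ : ∃ y, y = C (lam' - r * c ^ 4) * T1 - C (r ^ 2 * c ^ (k + 3)) * T1 ^ 2 -
    C (a * c ^ (3 * (k - 1))) * (T1 ^ 4 * w) * (1 + C lam * T) -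
    C (b * c ^ (5 * k - 3)) * (T1 ^ 6 * w ^ 2) * (1 + C lam * T) := ⟨_, rfl⟩
  have hlamV : lam ∈ V := by
    rw [hlam]
    exact mul_mem (pow_mem hcV 3) hl
  have vs : In V.toSubring s := by
    rw [hs]
    exact In.one.add ((In.C (mul_mem hr (pow_mem hcV _))).mul hT1V)
  have v1 : In V.toSubring (1 + C lam * T) := In.one.add ((In.C hlamV).mul hTV)
  have vy : In V.toSubring y := by
    rw [hy]
    exact ((((In.C (sub_mem hl (mul_mem hr (pow_mem hcV 4)))).mul hT1V).sub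
      ((In.C (mul_mem (pow_mem hr 2) (pow_mem hcV _))).mul (hT1V.pow 2))).sub
      (((In.C (mul_mem ha (pow_mem hcV _))).mul ((hT1V.pow 4).mul hwV)).mul v1)).sub
      (((In.C (mul_mem hb (pow_mem hcV _))).mul ((hT1V.pow 6).mul (hwV.pow 2))).mul v1)
  have hsy : (1 - C a * T * W - C b * W ^ 2) * (1 + C lam * T) + C nu * T ^ 3 =
      s ^ 3 + C (c ^ (k + 3)) * y := by
    obtain ⟨k', rfl⟩ : ∃ k', k = k' + 1 := ⟨k - 1, by omega⟩
    have e1 : (C c : Om⟦X⟧) ^ 8 = 3 := by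
      rw [← map_pow, hc, map_ofNat]
    have e2 : (C r : Om⟦X⟧) ^ 3 = C nu * C c ^ 3 := by
      rw [← map_pow, hrn, map_mul, map_pow]
    have e3 : (C c : Om⟦X⟧) ^ (k' + 1 + 3) = C c ^ k' * C c ^ 4 := by
      rw [← pow_add]
    have e5 : (C c : Om⟦X⟧) ^ (5 * (k' + 1) - 3) = (C c ^ k') ^ 5 * C c ^ 2 := by
      rw [← pow_mul, ← pow_add]
      congr 1
      omega
    rw [hWT, hs, hy, hT1', Nat.add_sub_cancel]
    have e6 : (C lam : Om⟦X⟧) = C c ^ 3 * C lam' := by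
      rw [hlam, map_mul, map_pow]
    simp only [map_mul, map_pow, map_sub]
    rw [e6, Nat.add_sub_cancel k' 1] at *
    rw [e3, e5, pow_succ (C c) k']
    have e4' : (C c : Om⟦X⟧) ^ (3 * k') = (C c ^ k') ^ 3 := by
      rw [← pow_mul]
      congr 1
      omega
    rw [e4']
    obtain ⟨K, hK⟩ : ∃ K : Om⟦X⟧, K = C c ^ k' := ⟨_, rfl⟩
    rw [← hK]
    linear_combination (-(K ^ 3 * T1 ^ 3)) * e2 + (C r * K * T1 + C r ^ 2 * K ^ 2 * T1 ^ 2) * e1
  have hy1 : coeff 1 y = (lam' - r * c ^ 4) * (coeff 1 u / c ^ k) := by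
    obtain ⟨t1, ht1⟩ := (X_dvd_iff).2 hT10
    have h4 : y = C (lam' - r * c ^ 4) * T1 + X ^ 2 * (-(C (r ^ 2 * c ^ (k + 3)) * t1 ^ 2) -
        C (a * c ^ (3 * (k - 1))) * (X ^ 2 * t1 ^ 4 * w) * (1 + C lam * T) -
        C (b * c ^ (5 * k - 3)) * (X ^ 4 * t1 ^ 6 * w ^ 2) * (1 + C lam * T)) := by
      rw [hy]
      obtain ⟨T1', hT1'⟩ : ∃ T1', T1' = T1 := ⟨_, rfl⟩
      rw [← hT1'] at ht1 ⊢
      have g1 : T1' ^ 2 = X ^ 2 * t1 ^ 2 := by rw [ht1]; ring
      have g2 : T1' ^ 4 = X ^ 4 * t1 ^ 4 := by rw [ht1]; ring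
      have g3 : T1' ^ 6 = X ^ 6 * t1 ^ 6 := by rw [ht1]; ring
      rw [g1, g2, g3]
      ring
    rw [h4, map_add, coeff_C_mul, coeff_X_pow_mul', if_neg (by norm_num), add_zero, hc11]
  have hra := DN.F4.unit_add (V := V) hl hlam0 hli (m := -(r * c ^ 4))
    (neg_mem (mul_mem hr (pow_mem hcV 4))) (by
    rcases eq_or_ne r 0 with h | h
    · left
      rw [h, zero_mul, neg_zero]
    · right
      intro h3
      apply hcI
      have h4 : c⁻¹ = -(r * c ^ 3 * (-(r * c ^ 4))⁻¹) := by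
        field_simp
      rw [h4]
      exact neg_mem (mul_mem (mul_mem hr (pow_mem hcV 3)) h3))
  rw [← sub_eq_add_neg] at hra
  have hu10 : coeff 1 u / c ^ k ≠ 0 := div_ne_zero u1 hγ0
  have sS : In S.toSubring s := by
    rw [hs, hT1]
    have hγS : (c ^ k)⁻¹ ∈ S := inv_mem (pow_mem cS k)
    exact In.one.add ((In.C (mul_mem rS (pow_mem cS _))).mul ((In.C hγS).mul hTS))
  have tS : In S.toSubring t := fun n => by
    rw [htc]
    exact hTS _
  have tV : In V.toSubring t := fun n => by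
    rw [htc]
    exact hTV _
  have iQ1 : In S.toSubring Q1 := Q1S
  have iQ2 : In S.toSubring Q2 := Q2S
  have wQ1 : In V.toSubring Q1 := Q1V
  have wQ2 : In V.toSubring Q2 := Q2V
  refine con hU h3 hγ1 hγ2 (y := y) (s := s) (Q1 := -(t * Q1)) (Q2 := Q2) vy vs ?_ ?_
    (((tS.mul iQ1).neg).sub (sS.mul iQ2)) Q2S (((tV.mul wQ1).neg).sub (vs.mul wQ2)) Q2V hQ2 ?_
  · rw [hy1]
    exact mul_ne_zero hra.1 hu10
  · rw [hy1, mul_inv]
    exact mul_mem hra.2 u1'
  · rw [← hsy, ← hcb, ← hQ]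
    ring

end DM.F4
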